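import Pool.Agent.MP_e73476_ag.Mg.T_Main

open MvPolynomial

namespace Pool.Agent.Results.MP_e73476_ag.TCurves

/-- Ragsdale's inequalities for all maximal primitive T-curves. The lift `ν` induces a primitive
(unimodular) triangulation of the triangle of size `2 k`; the conclusion is that of the frozen
statement (ovals are counted on the sphere, so twice). -/
theorem result (k : ℕ) (hk : 1 ≤ k) (a ν : ℕ → ℕ → ℝ)
    (ha : ∀ i j, i + j ≤ 2 * k → a i j ≠ 0)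
    (hν : ∀ u v : ℝ, 0 ≤ u → 0 ≤ v → u + v ≤ (2 * k : ℕ) → ∃ (p q r : ℕ × ℕ) (A B C : ℝ),
      p.1 + p.2 ≤ 2 * k ∧ q.1 + q.2 ≤ 2 * k ∧ r.1 + r.2 ≤ 2 * k ∧
      ((q.1 : ℤ) - p.1) * ((r.2 : ℤ) - p.2) - ((q.2 : ℤ) - p.2) * ((r.1 : ℤ) - p.1) = 1 ∧
      (u, v) ∈ convexHull ℝ
        ({((p.1 : ℝ), (p.2 : ℝ)), ((q.1 : ℝ), (q.2 : ℝ)), ((r.1 : ℝ), (r.2 : ℝ))} : Set (ℝ × ℝ)) ∧
      ∀ i j : ℕ, i + j ≤ 2 * k →
        (((i, j) = p ∨ (i, j) = q ∨ (i, j) = r) → A * i + B * j + C = ν i j) ∧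
        (¬ ((i, j) = p ∨ (i, j) = q ∨ (i, j) = r) → A * i + B * j + C < ν i j)) :
    ∃ t₀ : ℝ, 0 < t₀ ∧ ∀ t : ℝ, 0 < t → t < t₀ →
      ∀ (F : MvPolynomial (Fin 3) ℝ) (S Z : Set (Fin 3 → ℝ)) (comps : Set (Set (Fin 3 → ℝ))),
      F = ∑ i ∈ Finset.range (2 * k + 1), ∑ j ∈ Finset.range (2 * k + 1 - i),
        C (a i j * t ^ ν i j) * X 0 ^ i * X 1 ^ j * X 2 ^ (2 * k - i - j) →
      (∀ z : Fin 3 → ℂ, z ≠ 0 → ∃ i : Fin 3,
        MvPolynomial.eval z (MvPolynomial.map (algebraMap ℝ ℂ) (MvPolynomial.pderiv i F)) ≠ 0) →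
      S = {x : Fin 3 → ℝ | ∑ i, x i ^ 2 = 1} →
      Z = {x : Fin 3 → ℝ | x ∈ S ∧ MvPolynomial.eval x F = 0} →
      comps = {C : Set (Fin 3 → ℝ) | ∃ x, x ∈ Z ∧ C = connectedComponentIn Z x} →
      comps.ncard = (2 * k - 1) * (2 * k - 2) + 2 →
      (k - 1) * (k - 2) ≤
          {C : Set (Fin 3 → ℝ) | C ∈ comps ∧
            Even ({D : Set (Fin 3 → ℝ) | D ∈ comps ∧ D ≠ C ∧ D ≠ Neg.neg '' C ∧
              ∃ x, x ∈ C ∧ connectedComponentIn (S \ (D ∪ Neg.neg '' D)) x ≠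
                connectedComponentIn (S \ (D ∪ Neg.neg '' D)) (-x)}.ncard / 2)}.ncard ∧
      (k - 1) * (k - 2) ≤
          {C : Set (Fin 3 → ℝ) | C ∈ comps ∧
            ¬ Even ({D : Set (Fin 3 → ℝ) | D ∈ comps ∧ D ≠ C ∧ D ≠ Neg.neg '' C ∧
              ∃ x, x ∈ C ∧ connectedComponentIn (S \ (D ∪ Neg.neg '' D)) x ≠
                connectedComponentIn (S \ (D ∪ Neg.neg '' D)) (-x)}.ncard / 2)}.ncard := by
  have hc := TC.cov_of (2 * k) ν hν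
  rw [Nat.cast_mul, Nat.cast_ofNat] at hc
  have hm := TC.main k hk (fun p => a p.1.toNat p.2.toNat) _
    (fun p hp => ha _ _ (by simp only [TC.InT] at hp; omega)) hc
  obtain ⟨t₀, h0, ht⟩ := (nhdsGT_basis (0 : ℝ)).eventually_iff.1 hm
  refine ⟨t₀, h0, fun t h1 h2 F S Z comps hF hns hS hZ hcomps hcard => ?_⟩
  subst hS hZ hcomps
  refine ht ⟨h1, h2⟩ F ?_ hns hcard
  have := TC.poly_eq (2 * k) fun i j => a i j * t ^ ν i j
  rw [Nat.cast_mul, Nat.cast_ofNat] at this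
  rw [hF, ← this]

end Pool.Agent.Results.MP_e73476_ag.TCurves
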